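import Pool.Agent.Work.MP_db9399_bg.Base

/-! THEOREM BIG, block UPAR: the partners of the vertices of `UH` (helper84). -/

set_option autoImplicit false

namespace Pool.Agent.Work.MP_db9399_bg.helper84

open Finset Classical
open Pool.Agent.Work.MP_db9399_bg
open Pool.Agent.Work.MP_db9399_all (nb)
open Pool.Agent.Work.MP_db9399_px (LWalk hit ee)
open Pool.Agent.Work.MP_db9399_dn (NB IsMat Tot)

universe u

section split
variable {V : Type u} [Fintype V]

/-- a partner function and a set containing exactly one end of every edge of `EH` -/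
theorem split {k : ℕ} {G : SimpleGraph V} {UH : Finset V} {c0 : V → Fin k}
    {EH : SimpleGraph V} {tu : V → Fin k} (h : HPre G UH c0 EH tu) :
    ∃ (U1 : Finset V) (pt : V → V), U1 ⊆ UH ∧ (∀ u ∈ UH, pt u ∈ UH) ∧
      (∀ u u', u ∈ UH → EH.Adj u u' → u' = pt u) ∧ (∀ u ∈ UH, pt (pt u) = u) ∧
      ∀ u ∈ UH, (u ∈ U1 ↔ pt u ∉ U1) := by
  have hc : ∀ u, ∃ u', u ∈ UH → EH.Adj u u' := by
    intro u
    by_cases hu : u ∈ UH
    · obtain ⟨u', hu'⟩ := h.cov u hu
      exact ⟨u', fun _ => hu'⟩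
    · exact ⟨u, fun h0 => absurd h0 hu⟩
  choose pt hpt using hc
  have huniq : ∀ u u1 u2, EH.Adj u u1 → EH.Adj u u2 → u1 = u2 := by
    intro u u1 u2 h1 h2
    have h3 : (nb EH u).card ≤ 1 := h.mat u
    exact card_le_one.mp h3 u1 (mem_nb.mpr h1) u2 (mem_nb.mpr h2)
  have hmem : ∀ u ∈ UH, pt u ∈ UH := fun u hu => h.EU (pt u) u (hpt u hu).symm
  have hinv : ∀ u ∈ UH, pt (pt u) = u := fun u hu =>
    huniq (pt u) _ _ (hpt (pt u) (hmem u hu)) (hpt u hu).symm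
  refine ⟨UH.filter (fun u => Fintype.equivFin V u < Fintype.equivFin V (pt u)), pt,
    filter_subset _ _, hmem, fun u u' hu h1 => huniq u u' _ h1 (hpt u hu), hinv, ?_⟩
  intro u hu
  rw [mem_filter, mem_filter, hinv u hu]
  have hne : Fintype.equivFin V u ≠ Fintype.equivFin V (pt u) := by
    intro h0
    have h1 := (Fintype.equivFin V).injective h0
    have h2 := hpt u hu
    rw [← h1] at h2
    exact EH.loopless.irrefl u h2
  constructor
  · rintro ⟨_, h1⟩ ⟨_, h2⟩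
    exact absurd h1 (not_lt.mpr h2.le)
  · intro h1
    refine ⟨hu, ?_⟩
    by_contra h2
    exact h1 ⟨hmem u hu, lt_of_le_of_ne (not_lt.mp h2) hne.symm⟩

end split

/-- UCL twice: first one end of every edge, then the other end -/
theorem two (hU : Stmt_UCL.{u}) (c δ : ℝ) (hc : 0 < c) (hδ : 0 < δ) :
    ∃ d0 : ℕ, ∀ {V : Type u} [Fintype V] (G : SimpleGraph V) (d D k : ℕ) (UH U1 : Finset V)
      (pt : V → V) (I : V → Finset (Fin k)) (Al : V → Fin k → Finset V), d0 ≤ d →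
      c * d ≤ (D : ℝ) → D ≤ d → (∀ v, (nb G v).card ≤ d) → (∀ v, (nb G v ∩ UH).card ≤ 2) →
      U1 ⊆ UH → (∀ u ∈ UH, pt u ∈ UH) → (∀ u ∈ UH, pt (pt u) = u) →
      (∀ u ∈ UH, (u ∈ U1 ↔ pt u ∉ U1)) → (∀ u ∈ UH, (I u).card ≤ d) →
      (∀ u ∈ UH, ∀ b ∈ I u, Al u b ⊆ nb G u ∧ D + 1 ≤ (Al u b).card) →
      (∀ u ∈ UH, ∀ v, ((I u).filter (fun b => v ∈ Al u b)).card ≤ D) →
      ∃ f : V → Fin k → V, (∀ u ∈ UH, ∀ b ∈ I u, f u b ∈ Al u b) ∧
        (∀ u ∈ UH, Set.InjOn (f u) (I u : Set (Fin k))) ∧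
        (∀ u ∈ UH, ∀ b ∈ I u, b ∈ I (pt u) → f u b ≠ f (pt u) b) ∧
        ∀ v b, (((nb G v).filter (fun x => ∃ u ∈ UH, b ∈ I u ∧ f u b = x)).card : ℝ) ≤
          δ * d := by
  obtain ⟨d0, h0⟩ := hU c (δ / 2) hc (by positivity)
  refine ⟨d0, ?_⟩
  intro V _ G d D k UH U1 pt I Al hd hcD hDd hdeg h2 hU1 hpt hinv hsp hI hAl hcnt
  obtain ⟨f1, h11, h12, h13⟩ := h0 G d D k U1 I Al hd hcD hDd hdeg
    (fun v => (card_le_card (inter_subset_inter_left hU1)).trans (h2 v))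
    (fun u hu => hI u (hU1 hu))
    (fun u hu b hb => ⟨(hAl u (hU1 hu) b hb).1, by have := (hAl u (hU1 hu) b hb).2; omega⟩)
    (fun u hu v => hcnt u (hU1 hu) v)
  obtain ⟨f2, h21, h22, h23⟩ := h0 G d D k (UH \ U1) I (fun u b => (Al u b).erase (f1 (pt u) b))
    hd hcD hDd hdeg
    (fun v => (card_le_card (inter_subset_inter_left sdiff_subset)).trans (h2 v))
    (fun u hu => hI u (sdiff_subset hu))
    (fun u hu b hb => by
      obtain ⟨h3, h4⟩ := hAl u (sdiff_subset hu) b hb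
      refine ⟨(erase_subset _ _).trans h3, ?_⟩
      have h5 := pred_card_le_card_erase (s := Al u b) (a := f1 (pt u) b)
      show D ≤ ((Al u b).erase (f1 (pt u) b)).card
      omega)
    (fun u hu v => by
      refine le_trans (card_le_card ?_) (hcnt u (sdiff_subset hu) v)
      intro b hb
      rw [mem_filter] at hb ⊢
      exact ⟨hb.1, mem_of_mem_erase hb.2⟩)
  refine ⟨fun u b => if u ∈ U1 then f1 u b else f2 u b, ?_, ?_, ?_, ?_⟩
  · intro u hu b hb
    by_cases h : u ∈ U1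
    · simp only [h, if_true]
      exact h11 u h b hb
    · simp only [h, if_false]
      exact mem_of_mem_erase (h21 u (mem_sdiff.mpr ⟨hu, h⟩) b hb)
  · intro u hu
    by_cases h : u ∈ U1
    · simp only [h, if_true]
      exact h12 u h
    · simp only [h, if_false]
      exact h22 u (mem_sdiff.mpr ⟨hu, h⟩)
  · intro u hu b hb hb'
    by_cases h : u ∈ U1
    · have h3 : pt u ∉ U1 := (hsp u hu).mp h
      simp only [h, if_true, h3, if_false]
      have h4 := h21 (pt u) (mem_sdiff.mpr ⟨hpt u hu, h3⟩) b hb'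
      rw [hinv u hu] at h4
      exact (ne_of_mem_erase h4).symm
    · have h3 : pt u ∈ U1 := by
        by_contra h3
        exact h ((hsp u hu).mpr h3)
      simp only [h, if_false, h3, if_true]
      exact ne_of_mem_erase (h21 u (mem_sdiff.mpr ⟨hu, h⟩) b hb)
  · intro v b
    have h3 : ((nb G v).filter (fun x => ∃ u ∈ UH, b ∈ I u ∧
        (if u ∈ U1 then f1 u b else f2 u b) = x)) ⊆
        ((nb G v).filter (fun x => ∃ u ∈ U1, b ∈ I u ∧ f1 u b = x)) ∪
        ((nb G v).filter (fun x => ∃ u ∈ UH \ U1, b ∈ I u ∧ f2 u b = x)) := by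
      intro x hx
      rw [mem_filter] at hx
      obtain ⟨hx1, u, hu, hb, hfu⟩ := hx
      rw [mem_union, mem_filter, mem_filter]
      by_cases h : u ∈ U1
      · rw [if_pos h] at hfu
        exact Or.inl ⟨hx1, u, h, hb, hfu⟩
      · rw [if_neg h] at hfu
        exact Or.inr ⟨hx1, u, mem_sdiff.mpr ⟨hu, h⟩, hb, hfu⟩
    have h4 : (((nb G v).filter (fun x => ∃ u ∈ UH, b ∈ I u ∧
        (if u ∈ U1 then f1 u b else f2 u b) = x)).card : ℝ) ≤
        (((nb G v).filter (fun x => ∃ u ∈ U1, b ∈ I u ∧ f1 u b = x)).card : ℝ) +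
        (((nb G v).filter (fun x => ∃ u ∈ UH \ U1, b ∈ I u ∧ f2 u b = x)).card : ℝ) := by
      exact_mod_cast (card_le_card h3).trans (card_union_le _ _)
    have h5 := h13 v b
    have h6 := h23 v b
    linarith


section cnt
variable {V : Type u} [Fintype V] {l m r K K1 : ℕ}

theorem card_c3 (a : ZMod (2 * m + 1)) (h : Fin m) : (c3 a h).card = 3 := by
  unfold c3
  rw [card_image_of_injective _ (c3f_inj a h), card_univ, Fintype.card_fin]

theorem card_ne_zero : (((univ : Finset (ZMod (2 * l + 1))).erase 0).card : ℝ) = 2 * (l : ℝ) := by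
  rw [card_erase_of_mem (mem_univ _), card_univ, ZMod.card]
  push_cast
  simp

theorem den_A (a : ZMod (2 * m + 1)) (h : Fin m) :
    den (bx (c3 a h) (univ.erase 0) univ univ univ univ : Finset (Lbl l m r K K1)) =
      3 * (2 * l) / ((2 * (m : ℝ) + 1) * (2 * l + 1)) := by
  rw [den_bx, card_c3, card_ne_zero, card_univ_zmod, card_univ_fin, card_univ_fin, card_univ_fin]
  have h1 : (2 * (m : ℝ) + 1) ≠ 0 := by positivity
  have h2 : (2 * (l : ℝ) + 1) ≠ 0 := by positivity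
  have h3 : ((r : ℝ) + 1) ≠ 0 := by positivity
  have h4 : ((K : ℝ) + 1) ≠ 0 := by positivity
  have h5 : ((K1 : ℝ) + 1) ≠ 0 := by positivity
  push_cast
  field_simp

theorem den_Q (a : ZMod (2 * m + 1)) (s : Fin (r + 1)) :
    den (bx {a} univ {s} univ univ univ : Finset (Lbl l m r K K1)) =
      1 / ((2 * (m : ℝ) + 1) * (r + 1)) := by
  rw [den_bx, card_univ_zmod, card_univ_zmod, card_univ_fin, card_univ_fin, card_singleton,
    card_singleton]
  have h1 : (2 * (m : ℝ) + 1) ≠ 0 := by positivity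
  have h2 : (2 * (l : ℝ) + 1) ≠ 0 := by positivity
  have h3 : ((r : ℝ) + 1) ≠ 0 := by positivity
  have h4 : ((K : ℝ) + 1) ≠ 0 := by positivity
  have h5 : ((K1 : ℝ) + 1) ≠ 0 := by positivity
  push_cast
  field_simp

theorem den_B :
    den (bx univ {0} univ univ univ univ : Finset (Lbl l m r K K1)) = 1 / (2 * (l : ℝ) + 1) := by
  rw [den_bx, card_univ_zmod, card_univ_fin, card_univ_fin, card_univ_fin, card_singleton]
  have h1 : (2 * (m : ℝ) + 1) ≠ 0 := by positivity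
  have h2 : (2 * (l : ℝ) + 1) ≠ 0 := by positivity
  have h3 : ((r : ℝ) + 1) ≠ 0 := by positivity
  have h4 : ((K : ℝ) + 1) ≠ 0 := by positivity
  have h5 : ((K1 : ℝ) + 1) ≠ 0 := by positivity
  push_cast
  field_simp

/-- lower bound for the lists of the colours `e x` -/
theorem lowA {k w d : ℕ} {G : SimpleGraph V} {σ c1 : ℝ} {UH : Finset V} {c0 : V → Fin k}
    {EH : SimpleGraph V} {tu : V → Fin k} {lab : V → Lbl l m r K K1} {e : Ix m w → Fin k}
    {pal : Fin m × Fin w → Fin (r + 1)} {c : V → Fin k} (hL : LabP G d σ c1 lab)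
    (hH : HPre G UH c0 EH tu) (he : Function.Injective e) (hV : VCol G UH c0 lab e pal c)
    (u : V) (x : Ix m w) :
    3 * (2 * l) / ((2 * (m : ℝ) + 1) * (2 * l + 1)) * (nb G u).card - σ * d - 2 -
      (1 / ((2 * (m : ℝ) + 1) * (r + 1)) * (nb G u).card + σ * d) ≤
      (((nb G u).filter (fun v => v ∉ UH ∧ (lab v).2.1 ≠ 0 ∧ c v ≠ e x ∧
        (lab v).1 ∈ c3 x.1 x.2.1)).card : ℝ) := by
  have h1 := hL.deg u (bx (c3 x.1 x.2.1) (univ.erase 0) univ univ univ univ)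
  have h2 := hL.deg u (bx {x.1} univ {pal x.2} univ univ univ)
  rw [den_A, abs_le] at h1
  rw [den_Q, abs_le] at h2
  have h3 : nb G u ∩ cl lab (bx (c3 x.1 x.2.1) (univ.erase 0) univ univ univ univ) ⊆
      (nb G u).filter (fun v => v ∉ UH ∧ (lab v).2.1 ≠ 0 ∧ c v ≠ e x ∧
        (lab v).1 ∈ c3 x.1 x.2.1) ∪ (nb G u ∩ UH) ∪
      (nb G u ∩ cl lab (bx {x.1} univ {pal x.2} univ univ univ)) := by
    intro v hv
    rw [mem_inter, mem_cl, mem_bx] at hv
    obtain ⟨hv1, hv2, hv3, _⟩ := hv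
    rw [mem_union, mem_union, mem_filter, mem_inter, mem_inter, mem_cl, mem_bx]
    by_cases hU : v ∈ UH
    · exact Or.inl (Or.inr ⟨hv1, hU⟩)
    · by_cases hcv : c v = e x
      · right
        obtain ⟨y, hy1, hy2⟩ := hV.cP v hU
        rw [hcv] at hy1
        have hxy := he hy1
        refine ⟨hv1, ?_, mem_univ _, ?_, mem_univ _, mem_univ _, mem_univ _⟩
        · rw [mem_singleton, hxy]
        · rw [mem_singleton, ← hy2, hxy]
      · exact Or.inl (Or.inl ⟨hv1, hU, (mem_erase.mp hv3).1, hcv, hv2⟩)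
  have h4 := (card_le_card h3).trans ((card_union_le _ _).trans
    (Nat.add_le_add_right (card_union_le _ _) _))
  have h5 := hH.two u
  have h6 : ((nb G u ∩ cl lab (bx (c3 x.1 x.2.1) (univ.erase 0) univ univ univ univ)).card : ℝ) ≤
      (((nb G u).filter (fun v => v ∉ UH ∧ (lab v).2.1 ≠ 0 ∧ c v ≠ e x ∧
        (lab v).1 ∈ c3 x.1 x.2.1)).card : ℝ) + 2 +
      ((nb G u ∩ cl lab (bx {x.1} univ {pal x.2} univ univ univ)).card : ℝ) := by
    have h7 : (((nb G u ∩ UH).card : ℕ) : ℝ) ≤ 2 := by exact_mod_cast h5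
    have h8 : ((nb G u ∩ cl lab (bx (c3 x.1 x.2.1) (univ.erase 0) univ univ univ univ)).card : ℝ) ≤
      (((nb G u).filter (fun v => v ∉ UH ∧ (lab v).2.1 ≠ 0 ∧ c v ≠ e x ∧
        (lab v).1 ∈ c3 x.1 x.2.1)).card : ℝ) + ((nb G u ∩ UH).card : ℝ) +
      ((nb G u ∩ cl lab (bx {x.1} univ {pal x.2} univ univ univ)).card : ℝ) := by
      exact_mod_cast h4
    linarith
  linarith [h1.1, h2.2]

/-- lower bound for the lists of the colours `e1 y` -/
theorem lowB {k d : ℕ} {G : SimpleGraph V} {σ c1 : ℝ} {UH : Finset V} {c0 : V → Fin k}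
    {EH : SimpleGraph V} {tu : V → Fin k} {lab : V → Lbl l m r K K1} (hL : LabP G d σ c1 lab)
    (hH : HPre G UH c0 EH tu) (u : V) :
    1 / (2 * (l : ℝ) + 1) * (nb G u).card - σ * d - 2 ≤
      (((nb G u).filter (fun v => v ∉ UH ∧ (lab v).2.1 = 0)).card : ℝ) := by
  have h1 := hL.deg u (bx univ {0} univ univ univ univ)
  rw [den_B, abs_le] at h1
  have h3 : nb G u ∩ cl lab (bx univ {0} univ univ univ univ) ⊆
      (nb G u).filter (fun v => v ∉ UH ∧ (lab v).2.1 = 0) ∪ (nb G u ∩ UH) := by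
    intro v hv
    rw [mem_inter, mem_cl, mem_bx] at hv
    obtain ⟨hv1, _, hv3, _⟩ := hv
    rw [mem_union, mem_filter, mem_inter]
    by_cases hU : v ∈ UH
    · exact Or.inr ⟨hv1, hU⟩
    · exact Or.inl ⟨hv1, hU, mem_singleton.mp hv3⟩
  have h4 := (card_le_card h3).trans (card_union_le _ _)
  have h5 := hH.two u
  have h7 : (((nb G u ∩ UH).card : ℕ) : ℝ) ≤ 2 := by exact_mod_cast h5
  have h8 : ((nb G u ∩ cl lab (bx univ {0} univ univ univ univ)).card : ℝ) ≤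
      (((nb G u).filter (fun v => v ∉ UH ∧ (lab v).2.1 = 0)).card : ℝ) +
        ((nb G u ∩ UH).card : ℝ) := by
    exact_mod_cast h4
  linarith [h1.1]

/-- every vertex is in at most `3 m w` lists -/
theorem cntA {k w : ℕ} {e : Ix m w → Fin k} (a : ZMod (2 * m + 1)) (I : Finset (Fin k)) :
    (I.filter (fun b => ∃ x, e x = b ∧ a ∈ c3 x.1 x.2.1)).card ≤ 3 * (m * w) := by
  have h1 : I.filter (fun b => ∃ x, e x = b ∧ a ∈ c3 x.1 x.2.1) ⊆
      (univ : Finset (Fin 3 × (Fin m × Fin w))).image (fun z => e (a -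
        (c3f 0 z.2.1 z.1), z.2)) := by
    intro b hb
    rw [mem_filter] at hb
    obtain ⟨_, x, hx, hax⟩ := hb
    unfold c3 at hax
    rw [mem_image] at hax
    obtain ⟨i, _, hi⟩ := hax
    rw [mem_image]
    refine ⟨(i, x.2), mem_univ _, ?_⟩
    rw [← hx]
    congr 1
    have h2 : c3f x.1 x.2.1 i = x.1 + c3f 0 x.2.1 i := by
      unfold c3f
      fin_cases i <;> simp [sub_eq_add_neg]
    refine Prod.ext ?_ rfl
    show a - c3f 0 x.2.1 i = x.1
    rw [← hi, h2]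
    ring
  refine (card_le_card h1).trans (card_image_le.trans ?_)
  rw [card_univ, Fintype.card_prod, Fintype.card_prod, Fintype.card_fin, Fintype.card_fin,
    Fintype.card_fin]

end cnt


/-- numerical facts -/
theorem numA {N Λ r d X σ : ℝ} (hN : 3 ≤ N) (hΛ : 41 ≤ Λ) (hr : Λ ≤ r + 1)
    (hd : 16 * (N * Λ) ≤ d) (hX1 : (1 - 1 / (24 * Λ)) * d ≤ X) (hX2 : X ≤ d)
    (hσ : σ = 1 / (16 * (N * Λ))) :
    3 / N * (1 - 3 / (2 * Λ)) * d + 2 ≤
      3 * (Λ - 1) / (N * Λ) * X - σ * d - 2 - (1 / (N * (r + 1)) * X + σ * d) := by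
  have hN0 : 0 < N := by linarith
  have hΛ0 : 0 < Λ := by linarith
  have hd0 : 0 < d := lt_of_lt_of_le (by positivity) hd
  obtain ⟨t, ht⟩ : ∃ t, t = d / (N * Λ) := ⟨_, rfl⟩
  have hdt : d = t * (N * Λ) := by rw [ht]; field_simp
  have ht16 : 16 ≤ t := by rw [ht, le_div_iff₀ (by positivity)]; exact hd
  have a1 : σ * d = t / 16 := by rw [hσ, hdt]; field_simp
  have a2 : 1 / (N * (r + 1)) * X ≤ t := by
    have h1 : 1 / (N * (r + 1)) ≤ 1 / (N * Λ) :=
      one_div_le_one_div_of_le (by positivity) (mul_le_mul_of_nonneg_left hr hN0.le)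
    calc 1 / (N * (r + 1)) * X ≤ 1 / (N * Λ) * d :=
          mul_le_mul h1 hX2 (le_trans (by
            have : 1 / (24 * Λ) ≤ 1 := by
              rw [div_le_one (by positivity)]; linarith
            exact mul_nonneg (by linarith) hd0.le) hX1) (by positivity)
      _ = t := by rw [ht]; ring
  have a3 : 3 / N * (1 - 3 / (2 * Λ)) * d = 3 * Λ * t - 9 / 2 * t := by
    rw [hdt]; field_simp; ring
  have a4 : 3 * (Λ - 1) * t - t / 8 ≤ 3 * (Λ - 1) / (N * Λ) * X := by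
    have h1 : 3 * (Λ - 1) / (N * Λ) * ((1 - 1 / (24 * Λ)) * d) ≤ 3 * (Λ - 1) / (N * Λ) * X :=
      mul_le_mul_of_nonneg_left hX1 (div_nonneg (by linarith) (by positivity))
    refine le_trans ?_ h1
    have h2 : 3 * (Λ - 1) / (N * Λ) * ((1 - 1 / (24 * Λ)) * d) =
        3 * (Λ - 1) * t - (Λ - 1) / Λ * (t / 8) := by
      rw [hdt]; field_simp; ring
    rw [h2]
    have h3 : (Λ - 1) / Λ ≤ 1 := by rw [div_le_one hΛ0]; linarith
    have h4 : (Λ - 1) / Λ * (t / 8) ≤ 1 * (t / 8) :=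
      mul_le_mul_of_nonneg_right h3 (by linarith)
    linarith
  rw [a3]
  linarith

theorem numB {N Λ d X σ : ℝ} (hN : 3 ≤ N) (hΛ : 41 ≤ Λ) (hd : 16 * (N * Λ) ≤ d)
    (hX1 : (1 - 1 / (24 * Λ)) * d ≤ X) (hσ : σ = 1 / (16 * (N * Λ))) :
    1 / (2 * Λ) * d + 2 ≤ 1 / Λ * X - σ * d - 2 := by
  have hN0 : 0 < N := by linarith
  have hΛ0 : 0 < Λ := by linarith
  obtain ⟨s, hs⟩ : ∃ s, s = d / Λ := ⟨_, rfl⟩
  have hds : d = s * Λ := by rw [hs]; field_simp
  have hs48 : 48 ≤ s := by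
    rw [hs, le_div_iff₀ hΛ0]
    nlinarith
  have a1 : σ * d ≤ s / 48 := by
    have : σ * d = s / 16 * (1 / N) := by rw [hσ, hds]; field_simp
    rw [this]
    have h1 : 1 / N ≤ 1 / 3 := one_div_le_one_div_of_le (by norm_num) hN
    nlinarith
  have a2 : 1 / (2 * Λ) * d = s / 2 := by rw [hds]; field_simp
  have a3 : s - s / 24 ≤ 1 / Λ * X := by
    have h1 : 1 / Λ * ((1 - 1 / (24 * Λ)) * d) ≤ 1 / Λ * X :=
      mul_le_mul_of_nonneg_left hX1 (by positivity)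
    refine le_trans ?_ h1
    have h2 : 1 / Λ * ((1 - 1 / (24 * Λ)) * d) = s - s / 24 * (1 / Λ) := by
      rw [hds]; field_simp
    rw [h2]
    have h3 : 1 / Λ ≤ 1 := by rw [div_le_one hΛ0]; linarith
    have h4 : s / 24 * (1 / Λ) ≤ s / 24 * 1 := mul_le_mul_of_nonneg_left h3 (by linarith)
    linarith
  rw [a2]
  linarith

theorem stmt_UPAR (hU : Stmt_UCL.{u}) : Stmt_UPAR.{u} := by
  intro l m r K K1 δ hδ hl hm hr
  obtain ⟨N, hNdef⟩ : ∃ N : ℝ, N = 2 * (m : ℝ) + 1 := ⟨_, rfl⟩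
  obtain ⟨Λ, hΛdef⟩ : ∃ Λ : ℝ, Λ = 2 * (l : ℝ) + 1 := ⟨_, rfl⟩
  have hN3 : 3 ≤ N := by
    have : (1 : ℝ) ≤ m := by exact_mod_cast hm
    rw [hNdef]; linarith
  have hΛ41 : 41 ≤ Λ := by
    have : (20 : ℝ) ≤ l := by exact_mod_cast hl
    rw [hΛdef]; linarith
  have hN0 : 0 < N := by linarith
  have hΛ0 : 0 < Λ := by linarith
  have hr' : Λ ≤ (r : ℝ) + 1 := by
    have : ((2 * l + 1 : ℕ) : ℝ) ≤ r := by exact_mod_cast hr
    push_cast at this
    rw [hΛdef]; linarith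
  have hcA : 0 < 3 / N * (1 - 3 / (2 * Λ)) := by
    have : 3 / (2 * Λ) < 1 := by rw [div_lt_one (by positivity)]; linarith
    exact mul_pos (by positivity) (by linarith)
  have hcB : 0 < 1 / (2 * Λ) := by positivity
  obtain ⟨dA, hdA⟩ := two hU (3 / N * (1 - 3 / (2 * Λ))) δ hcA hδ
  obtain ⟨dB, hdB⟩ := two hU (1 / (2 * Λ)) δ hcB hδ
  refine ⟨1 / (16 * (N * Λ)), 1 / (24 * Λ), max (max dA dB) (16 * ((2 * m + 1) * (2 * l + 1))),
    by positivity, by positivity, ?_⟩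
  intro V _ G d k w w1 g c1 UH c0 EH tu lab e e1 pal c hd hBG hL hH he he1 hee hV hw hw1
  have hd1 : dA ≤ d := le_trans (le_trans (le_max_left _ _) (le_max_left _ _)) hd
  have hd2 : dB ≤ d := le_trans (le_trans (le_max_right _ _) (le_max_left _ _)) hd
  have hd3 : 16 * (N * Λ) ≤ (d : ℝ) := by
    have h1 : 16 * ((2 * m + 1) * (2 * l + 1)) ≤ d := le_trans (le_max_right _ _) hd
    have h2 : ((16 * ((2 * m + 1) * (2 * l + 1)) : ℕ) : ℝ) ≤ d := by exact_mod_cast h1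
    push_cast at h2
    rw [hNdef, hΛdef]
    exact h2
  have hd0 : (0 : ℝ) < d := lt_of_lt_of_le (by positivity) hd3
  rw [← hNdef, ← hΛdef] at hw
  rw [← hΛdef] at hw1
  obtain ⟨U1, pt, hU1, hpt, hadj, hinv, hsp⟩ := split hH
  -- the number of colours
  obtain ⟨DA, hDA⟩ : ∃ DA : ℕ, DA = ⌈3 / N * (1 - 3 / (2 * Λ)) * (d : ℝ)⌉₊ := ⟨_, rfl⟩
  obtain ⟨DB, hDB⟩ : ∃ DB : ℕ, DB = ⌈1 / (2 * Λ) * (d : ℝ)⌉₊ := ⟨_, rfl⟩
  have hDA1 : 3 / N * (1 - 3 / (2 * Λ)) * (d : ℝ) ≤ DA := by rw [hDA]; exact Nat.le_ceil _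
  have hDB1 : 1 / (2 * Λ) * (d : ℝ) ≤ DB := by rw [hDB]; exact Nat.le_ceil _
  have hDA2 : (DA : ℝ) ≤ 3 / N * (1 - 3 / (2 * Λ)) * (d : ℝ) + 1 := by
    rw [hDA]
    exact (Nat.ceil_lt_add_one (mul_nonneg hcA.le hd0.le)).le
  have hDB2 : (DB : ℝ) ≤ 1 / (2 * Λ) * (d : ℝ) + 1 := by
    rw [hDB]
    exact (Nat.ceil_lt_add_one (mul_nonneg hcB.le hd0.le)).le
  have hdΛ : Λ ≤ (d : ℝ) := by nlinarith
  have hDAd : DA ≤ d := by
    have h1 : 3 / N * (1 - 3 / (2 * Λ)) * (d : ℝ) + 1 ≤ d := by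
      have h2 : 3 / N ≤ 1 := by rw [div_le_one hN0]; exact hN3
      have h3 : 0 ≤ (1 - 3 / (2 * Λ)) * (d : ℝ) := by
        have : 3 / (2 * Λ) ≤ 1 := by rw [div_le_one (by positivity)]; linarith
        exact mul_nonneg (by linarith) hd0.le
      have h4 : 3 / N * ((1 - 3 / (2 * Λ)) * (d : ℝ)) ≤ 1 * ((1 - 3 / (2 * Λ)) * (d : ℝ)) :=
        mul_le_mul_of_nonneg_right h2 h3
      have h5 : 1 ≤ 3 / (2 * Λ) * (d : ℝ) := by
        rw [div_mul_eq_mul_div, le_div_iff₀ (by positivity)]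
        linarith
      nlinarith
    exact_mod_cast hDA2.trans h1
  have hDBd : DB ≤ d := by
    have h1 : 1 / (2 * Λ) * (d : ℝ) + 1 ≤ d := by
      have h2 : 1 / (2 * Λ) ≤ 1 / 2 := one_div_le_one_div_of_le (by norm_num) (by linarith)
      have h3 : 1 / (2 * Λ) * (d : ℝ) ≤ 1 / 2 * d := mul_le_mul_of_nonneg_right h2 hd0.le
      linarith
    exact_mod_cast hDB2.trans h1
  have h3mw : 3 * (m * w) ≤ DA := by
    have h1 : (3 : ℝ) * (m * w) ≤ 3 / N * (1 - 3 / (2 * Λ)) * (d : ℝ) := by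
      have h2 : (3 : ℝ) * (m * w) = 3 / N * (N * m * w) := by field_simp
      rw [h2, mul_assoc (3 / N)]
      exact mul_le_mul_of_nonneg_left hw (by positivity)
    exact_mod_cast h1.trans hDA1
  have hK1w : (K1 + 1) * ((K1 + 1) * w1) ≤ DB := by
    have h1 : ((K1 : ℝ) + 1) ^ 2 * w1 ≤ 1 / (2 * Λ) * (d : ℝ) := by
      refine hw1.trans ?_
      rw [div_mul_eq_mul_div, one_mul]
      exact div_le_div_of_nonneg_left hd0.le (by positivity) (by linarith)
    have h2 : (((K1 + 1) * ((K1 + 1) * w1) : ℕ) : ℝ) ≤ DB := by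
      push_cast
      calc ((K1 : ℝ) + 1) * ((K1 + 1) * w1) = ((K1 : ℝ) + 1) ^ 2 * w1 := by ring
        _ ≤ DB := h1.trans hDB1
    exact_mod_cast h2
  -- cardinalities of the index sets
  have hcardA : (univ.filter (fun b : Fin k => b ∈ Set.range e)).card ≤ d := by
    have h1 : univ.filter (fun b : Fin k => b ∈ Set.range e) ⊆ univ.image e := by
      intro b hb
      rw [mem_filter] at hb
      obtain ⟨x, hx⟩ := hb.2
      exact mem_image.mpr ⟨x, mem_univ _, hx⟩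
    refine (card_le_card h1).trans (card_image_le.trans ?_)
    rw [card_univ, Fintype.card_prod, Fintype.card_prod, ZMod.card, Fintype.card_fin,
      Fintype.card_fin]
    have h2 : (((2 * m + 1) * (m * w) : ℕ) : ℝ) ≤ d := by
      push_cast
      have h3 : N * m * w ≤ (d : ℝ) := by
        refine hw.trans ?_
        have : 0 ≤ 3 / (2 * Λ) * (d : ℝ) := by positivity
        nlinarith
      rw [hNdef] at h3
      linarith
    exact_mod_cast h2
  have hcardB : (univ.filter (fun b : Fin k => b ∈ Set.range e1)).card ≤ DB := by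
    have h1 : univ.filter (fun b : Fin k => b ∈ Set.range e1) ⊆ univ.image e1 := by
      intro b hb
      rw [mem_filter] at hb
      obtain ⟨x, hx⟩ := hb.2
      exact mem_image.mpr ⟨x, mem_univ _, hx⟩
    refine (card_le_card h1).trans (card_image_le.trans ?_)
    rw [card_univ, Fintype.card_prod, Fintype.card_prod, Fintype.card_fin,
      Fintype.card_fin]
    exact hK1w
  obtain ⟨IA, hIA⟩ : ∃ IA : V → Finset (Fin k), IA = fun u =>
    univ.filter (fun b => b ∈ Set.range e ∧ b ≠ c0 u ∧ b ≠ tu u) := ⟨_, rfl⟩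
  obtain ⟨IB, hIB⟩ : ∃ IB : V → Finset (Fin k), IB = fun u =>
    univ.filter (fun b => b ∈ Set.range e1 ∧ b ≠ c0 u ∧ b ≠ tu u) := ⟨_, rfl⟩
  have hIAm : ∀ u b, b ∈ IA u ↔ b ∈ Set.range e ∧ b ≠ c0 u ∧ b ≠ tu u := by
    intro u b
    rw [hIA]
    simp only [mem_filter, mem_univ, true_and]
  have hIBm : ∀ u b, b ∈ IB u ↔ b ∈ Set.range e1 ∧ b ≠ c0 u ∧ b ≠ tu u := by
    intro u b
    rw [hIB]
    simp only [mem_filter, mem_univ, true_and]
  have hIAc : ∀ u, (IA u).card ≤ d := by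
    intro u
    refine (card_le_card ?_).trans hcardA
    intro b hb
    rw [mem_filter]
    exact ⟨mem_univ _, ((hIAm u b).mp hb).1⟩
  have hIBc : ∀ u, (IB u).card ≤ DB := by
    intro u
    refine (card_le_card ?_).trans hcardB
    intro b hb
    rw [mem_filter]
    exact ⟨mem_univ _, ((hIBm u b).mp hb).1⟩
  have hX1 : ∀ u, (1 - 1 / (24 * Λ)) * (d : ℝ) ≤ ((nb G u).card : ℝ) := hBG.low
  have hX2 : ∀ u, ((nb G u).card : ℝ) ≤ d := fun u => by exact_mod_cast hBG.deg u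
  -- the colours e x
  obtain ⟨fA, hfA1, hfA2, hfA3, hfA4⟩ := hdA G d DA k UH U1 pt IA
    (fun u b => (nb G u).filter (fun v => v ∉ UH ∧ (lab v).2.1 ≠ 0 ∧ c v ≠ b ∧
      ∃ x, e x = b ∧ (lab v).1 ∈ c3 x.1 x.2.1)) hd1 hDA1 hDAd hBG.deg hH.two hU1 hpt hinv hsp
    (fun u _ => hIAc u)
    (fun u _ b hb => by
      refine ⟨filter_subset _ _, ?_⟩
      obtain ⟨⟨x, hx⟩, _, _⟩ := (hIAm u b).mp hb
      have h1 := lowA hL hH he hV u x
      rw [← hNdef, ← hΛdef] at h1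
      have h2 := numA hN3 hΛ41 hr' hd3 (hX1 u) (hX2 u) rfl
      have h3 : (2 * (l : ℝ)) = Λ - 1 := by rw [hΛdef]; ring
      rw [h3] at h1
      have h4 : (((nb G u).filter (fun v => v ∉ UH ∧ (lab v).2.1 ≠ 0 ∧ c v ≠ e x ∧
          (lab v).1 ∈ c3 x.1 x.2.1)).card : ℝ) ≤
          (((nb G u).filter (fun v => v ∉ UH ∧ (lab v).2.1 ≠ 0 ∧ c v ≠ b ∧
            ∃ x, e x = b ∧ (lab v).1 ∈ c3 x.1 x.2.1)).card : ℝ) := by
        have h5 : (nb G u).filter (fun v => v ∉ UH ∧ (lab v).2.1 ≠ 0 ∧ c v ≠ e x ∧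
          (lab v).1 ∈ c3 x.1 x.2.1) ⊆ (nb G u).filter (fun v => v ∉ UH ∧ (lab v).2.1 ≠ 0 ∧
            c v ≠ b ∧ ∃ x, e x = b ∧ (lab v).1 ∈ c3 x.1 x.2.1) := by
          intro v hv
          rw [mem_filter] at hv ⊢
          obtain ⟨g1, g2, g3, g4, g5⟩ := hv
          exact ⟨g1, g2, g3, by rw [← hx]; exact g4, x, hx, g5⟩
        exact_mod_cast card_le_card h5
      have h6 : (DA : ℝ) + 1 ≤ (((nb G u).filter (fun v => v ∉ UH ∧ (lab v).2.1 ≠ 0 ∧
          c v ≠ b ∧ ∃ x, e x = b ∧ (lab v).1 ∈ c3 x.1 x.2.1)).card : ℝ) := by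
        linarith
      exact_mod_cast h6)
    (fun u _ v => by
      refine le_trans (card_le_card ?_) ((cntA (e := e) (lab v).1 (IA u)).trans h3mw)
      intro b hb
      rw [mem_filter] at hb ⊢
      exact ⟨hb.1, (mem_filter.mp hb.2).2.2.2.2⟩)
  -- the colours e1 y
  obtain ⟨fB, hfB1, hfB2, hfB3, hfB4⟩ := hdB G d DB k UH U1 pt IB
    (fun u _ => (nb G u).filter (fun v => v ∉ UH ∧ (lab v).2.1 = 0)) hd2 hDB1 hDBd
    hBG.deg hH.two hU1 hpt hinv hsp (fun u _ => (hIBc u).trans hDBd)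
    (fun u _ b _ => by
      refine ⟨filter_subset _ _, ?_⟩
      have h1 := lowB hL hH u
      rw [← hΛdef] at h1
      have h2 := numB hN3 hΛ41 hd3 (hX1 u) rfl
      have h6 : (DB : ℝ) + 1 ≤
          (((nb G u).filter (fun v => v ∉ UH ∧ (lab v).2.1 = 0)).card : ℝ) := by
        linarith
      exact_mod_cast h6)
    (fun u _ v => (card_le_card (filter_subset _ _)).trans (hIBc u))
  obtain ⟨wv, hwv⟩ : ∃ wv : V → Fin k → V, wv = fun u b =>
    if b ∈ Set.range e then fA u b else fB u b := ⟨_, rfl⟩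
  have hwA : ∀ u b, b ∈ Set.range e → wv u b = fA u b := by
    intro u b hb
    rw [hwv]
    exact if_pos hb
  have hne : ∀ b, b ∈ Set.range e1 → b ∉ Set.range e := by
    rintro b ⟨y, hy⟩ ⟨x, hx⟩
    exact hee x y (hx.trans hy.symm)
  have hwB : ∀ u b, b ∈ Set.range e1 → wv u b = fB u b := by
    intro u b hb
    rw [hwv]
    exact if_neg (hne b hb)
  have memA : ∀ u ∈ UH, ∀ b, b ≠ c0 u → b ≠ tu u → b ∈ Set.range e →
      G.Adj u (wv u b) ∧ wv u b ∉ UH ∧ (lab (wv u b)).2.1 ≠ 0 ∧ c (wv u b) ≠ b ∧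
      ∃ x, e x = b ∧ (lab (wv u b)).1 ∈ c3 x.1 x.2.1 := by
    intro u hu b h1 h2 h3
    have h4 := hfA1 u hu b ((hIAm u b).mpr ⟨h3, h1, h2⟩)
    rw [mem_filter, mem_nb] at h4
    rw [hwA u b h3]
    exact h4
  have memB : ∀ u ∈ UH, ∀ b, b ≠ c0 u → b ≠ tu u → b ∈ Set.range e1 →
      G.Adj u (wv u b) ∧ wv u b ∉ UH ∧ (lab (wv u b)).2.1 = 0 := by
    intro u hu b h1 h2 h3
    have h4 := hfB1 u hu b ((hIBm u b).mpr ⟨h3, h1, h2⟩)
    rw [mem_filter, mem_nb] at h4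
    rw [hwB u b h3]
    exact h4
  refine ⟨wv, ?_, ?_, ?_, ?_, ?_, ?_⟩
  · intro u hu b h1 h2 h3
    rcases h3 with h3 | h3
    · obtain ⟨g1, g2, g3, g4, g5⟩ := memA u hu b h1 h2 h3
      exact ⟨g1, g2, g4⟩
    · obtain ⟨g1, g2, g3⟩ := memB u hu b h1 h2 h3
      refine ⟨g1, g2, ?_⟩
      obtain ⟨y, hy, _⟩ := hV.cP _ g2
      rw [hy]
      intro h4
      exact hne b h3 ⟨_, h4⟩
  · intro u hu b b' h1 h2 h1' h2' h3 h3' h4
    rcases h3 with h3 | h3
    · rcases h3' with h3' | h3'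
      · rw [hwA u b h3, hwA u b' h3'] at h4
        exact hfA2 u hu (mem_coe.mpr ((hIAm u b).mpr ⟨h3, h1, h2⟩))
          (mem_coe.mpr ((hIAm u b').mpr ⟨h3', h1', h2'⟩)) h4
      · exfalso
        have g1 := (memA u hu b h1 h2 h3).2.2.1
        have g2 := (memB u hu b' h1' h2' h3').2.2
        rw [h4] at g1
        exact g1 g2
    · rcases h3' with h3' | h3'
      · exfalso
        have g1 := (memA u hu b' h1' h2' h3').2.2.1
        have g2 := (memB u hu b h1 h2 h3).2.2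
        rw [← h4] at g1
        exact g1 g2
      · rw [hwB u b h3, hwB u b' h3'] at h4
        exact hfB2 u hu (mem_coe.mpr ((hIBm u b).mpr ⟨h3, h1, h2⟩))
          (mem_coe.mpr ((hIBm u b').mpr ⟨h3', h1', h2'⟩)) h4
  · intro u hu u' hu' b h1 h2 h1' h2' h3 h4
    have g1 : G.Adj u (wv u b) := by
      rcases h3 with h3 | h3
      · exact (memA u hu b h1 h2 h3).1
      · exact (memB u hu b h1 h2 h3).1
    have g2 : G.Adj u' (wv u' b) := by
      rcases h3 with h3 | h3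
      · exact (memA u' hu' b h1' h2' h3).1
      · exact (memB u' hu' b h1' h2' h3).1
    rw [← h4] at g2
    rcases hH.far (wv u b) u hu u' hu' g1.symm g2.symm with h5 | h5
    · exact h5
    · exfalso
      have h6 : u' = pt u := hadj u u' hu h5
      rw [h6] at h4 h1' h2'
      rcases h3 with h3 | h3
      · rw [hwA u b h3, hwA _ b h3] at h4
        exact hfA3 u hu b ((hIAm u b).mpr ⟨h3, h1, h2⟩)
          ((hIAm (pt u) b).mpr ⟨h3, h1', h2'⟩) h4
      · rw [hwB u b h3, hwB _ b h3] at h4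
        exact hfB3 u hu b ((hIBm u b).mpr ⟨h3, h1, h2⟩)
          ((hIBm (pt u) b).mpr ⟨h3, h1', h2'⟩) h4
  · intro u hu x h1 h2
    obtain ⟨_, _, _, _, x', hx', h3⟩ := memA u hu (e x) h1 h2 ⟨x, rfl⟩
    rw [he hx'] at h3
    exact h3
  · intro u hu y h1 h2
    exact (memB u hu (e1 y) h1 h2 ⟨y, rfl⟩).2.2
  · intro v b hb
    rcases hb with hb | hb
    · refine le_trans ?_ (hfA4 v b)
      have h1 : nb G v ∩ UW UH c0 tu wv b ⊆
          (nb G v).filter (fun x => ∃ u ∈ UH, b ∈ IA u ∧ fA u b = x) := by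
        intro x hx
        unfold UW at hx
        rw [mem_inter, mem_filter] at hx
        obtain ⟨hx1, _, u, hu, g1, g2, g3⟩ := hx
        rw [mem_filter]
        refine ⟨hx1, u, hu, (hIAm u b).mpr ⟨hb, g1, g2⟩, ?_⟩
        rw [← hwA u b hb]
        exact g3
      exact_mod_cast card_le_card h1
    · refine le_trans ?_ (hfB4 v b)
      have h1 : nb G v ∩ UW UH c0 tu wv b ⊆
          (nb G v).filter (fun x => ∃ u ∈ UH, b ∈ IB u ∧ fB u b = x) := by
        intro x hx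
        unfold UW at hx
        rw [mem_inter, mem_filter] at hx
        obtain ⟨hx1, _, u, hu, g1, g2, g3⟩ := hx
        rw [mem_filter]
        refine ⟨hx1, u, hu, (hIBm u b).mpr ⟨hb, g1, g2⟩, ?_⟩
        rw [← hwB u b hb]
        exact g3
      exact_mod_cast card_le_card h1

end Pool.Agent.Work.MP_db9399_bg.helper84
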